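import Pool.Agent.Work.MP_0d53be_an.Full.F.EB
import Pool.Agent.Work.MP_0d53be_an.Full.F.AG

/-!
# G/Cells: counting cells

`cells_strip`: let `s ≤ r`, `ρ ≥ 0`, `ν ≠ 0`, `T` a finite set such that any two points
`x, y ∈ T ∩ (z - box r)` satisfy `‖toC (x - y) - a ν‖ ≤ 2 ρ` for some real `a`. Then
`card (cellsMeeting s r z T) ≤ 2^(r-s) (8 ρ / 2^s + 4)`.
Proof. Assume `|Re ν| ≥ |Im ν|` (otherwise exchange the coordinates). Choose for every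
`u ∈ cellsMeeting` a point `x_u = z - 2^s u - b_u ∈ T`, `b_u ∈ box s`; `x_u ∈ z - box r` since
`2^s u + b ∈ box r`. Fix the first coordinate `u.1 ∈ {0, …, 2^(r-s) - 1}`. For `u, u'` in
`cellsMeeting` with `u.1 = u'.1`: `δ = x_u - x_{u'}` has `|δ.1| < 2^s`. Write
`toC δ = a ν + e`, `‖e‖ ≤ 2 ρ`. `|a Re ν| ≤ |δ.1| + 2ρ`, so `|a Im ν| ≤ |a Re ν| ≤ 2^s + 2 ρ` and
`|δ.2| ≤ 2^s + 4 ρ`. And `2^s |u.2 - u'.2| ≤ |δ.2| + 2^s ≤ 2 * 2^s + 4 ρ`. So the `u.2` lie in an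
interval of length `2 + 4 ρ/2^s`, at most `3 + 4 ρ / 2^s ≤ 8 ρ/2^s + 4` values.
`cells_point`: if any two points `x, y ∈ T ∩ (z - box r)` have `‖toC (x - y)‖ ≤ ρ`, then
`card (cellsMeeting s r z T) ≤ (ρ / 2^s + 3)^2`: `2^s |u_i - u'_i| ≤ |δ_i| + 2^s`, at most
`ρ/2^s + 2` values in each coordinate.
-/

set_option autoImplicit false

namespace Pool.Agent.Work.MP_0d53be_an.Full

private theorem card_le_diam {S : Finset ℤ} {L : ℝ} (hL : 0 ≤ L)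
    (h : ∀ x ∈ S, ∀ y ∈ S, |((x - y : ℤ) : ℝ)| ≤ L) : (S.card : ℝ) ≤ L + 1 := by
  rcases S.eq_empty_or_nonempty with rfl | hS
  · simp only [Finset.card_empty, Nat.cast_zero]
    linarith
  set m := S.min' hS with hm
  have hsub : S ⊆ Finset.Icc m (m + ⌊L⌋) := by
    intro x hx
    rw [Finset.mem_Icc]
    refine ⟨S.min'_le x hx, ?_⟩
    have h1 := h x hx m (S.min'_mem hS)
    have h2 : ((x - m : ℤ) : ℝ) ≤ L := (le_abs_self _).trans h1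
    have h3 := Int.le_floor.2 h2
    linarith
  have hc := Finset.card_le_card hsub
  rw [Int.card_Icc] at hc
  have hf : 0 ≤ ⌊L⌋ := Int.floor_nonneg.2 hL
  have h4 : (S.card : ℤ) ≤ ⌊L⌋ + 1 := by omega
  have h5 : (S.card : ℝ) ≤ ⌊L⌋ + 1 := by exact_mod_cast h4
  linarith [Int.floor_le L]

private theorem card_fib1 {C : Finset G} {k : ℕ} {L : ℝ} (hL : 0 ≤ L) (hC : C ⊆ box k)
    (h : ∀ u ∈ C, ∀ u' ∈ C, u.1 = u'.1 → |((u.2 - u'.2 : ℤ) : ℝ)| ≤ L) :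
    (C.card : ℝ) ≤ 2 ^ k * (L + 1) := by
  classical
  have hmaps : ∀ u ∈ C, u.1 ∈ Finset.Ico (0 : ℤ) (2 ^ k) := by
    intro u hu
    exact Finset.mem_Ico.2 (mem_box.1 (hC hu)).1
  have h1 : C.card = ∑ b ∈ Finset.Ico (0 : ℤ) (2 ^ k), (C.filter (fun a => a.1 = b)).card :=
    Finset.card_eq_sum_card_fiberwise hmaps
  have h2 : ∀ b ∈ Finset.Ico (0 : ℤ) (2 ^ k),
      (((C.filter (fun a => a.1 = b)).card : ℕ) : ℝ) ≤ L + 1 := by
    intro b _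
    have h3 : (C.filter (fun a => a.1 = b)).card =
        ((C.filter (fun a => a.1 = b)).image Prod.snd).card := by
      rw [Finset.card_image_of_injOn]
      intro u hu u' hu' he
      rw [Finset.mem_coe, Finset.mem_filter] at hu hu'
      exact Prod.ext (hu.2.trans hu'.2.symm) he
    rw [h3]
    refine card_le_diam hL ?_
    intro x hx y hy
    obtain ⟨u, hu, rfl⟩ := Finset.mem_image.1 hx
    obtain ⟨u', hu', rfl⟩ := Finset.mem_image.1 hy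
    rw [Finset.mem_filter] at hu hu'
    exact h u hu.1 u' hu'.1 (hu.2.trans hu'.2.symm)
  have h4 : (Finset.Ico (0 : ℤ) (2 ^ k)).card = 2 ^ k := by
    rw [Int.card_Ico, sub_zero, Int.toNat_pow_of_nonneg (by norm_num)]
    rfl
  calc (C.card : ℝ) = ∑ b ∈ Finset.Ico (0 : ℤ) (2 ^ k),
        (((C.filter (fun a => a.1 = b)).card : ℕ) : ℝ) := by
        rw [h1]
        push_cast
        rfl
    _ ≤ ∑ _b ∈ Finset.Ico (0 : ℤ) (2 ^ k), (L + 1) := Finset.sum_le_sum h2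
    _ = 2 ^ k * (L + 1) := by
        rw [Finset.sum_const, h4, nsmul_eq_mul]
        push_cast
        rfl

private theorem card_fib2 {C : Finset G} {k : ℕ} {L : ℝ} (hL : 0 ≤ L) (hC : C ⊆ box k)
    (h : ∀ u ∈ C, ∀ u' ∈ C, u.2 = u'.2 → |((u.1 - u'.1 : ℤ) : ℝ)| ≤ L) :
    (C.card : ℝ) ≤ 2 ^ k * (L + 1) := by
  classical
  have h1 : C.card = (C.image Prod.swap).card :=
    (Finset.card_image_of_injective C Prod.swap_injective).symm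
  rw [h1]
  refine card_fib1 hL ?_ ?_
  · intro u hu
    obtain ⟨v, hv, rfl⟩ := Finset.mem_image.1 hu
    have h2 := mem_box.1 (hC hv)
    exact mem_box.2 ⟨h2.2, h2.1⟩
  · intro u hu u' hu' he
    obtain ⟨v, hv, rfl⟩ := Finset.mem_image.1 hu
    obtain ⟨v', hv', rfl⟩ := Finset.mem_image.1 hu'
    exact h v hv v' hv' he

private theorem cm_pt {s r : ℕ} (hsr : s ≤ r) {z : G} {T : Finset G} {u : G}
    (hu : u ∈ cellsMeeting s r z T) :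
    ∃ x ∈ T, z - x ∈ box r ∧ ∃ b ∈ box s, x.1 = z.1 - 2 ^ s * u.1 - b.1 ∧
      x.2 = z.2 - 2 ^ s * u.2 - b.2 := by
  classical
  unfold cellsMeeting at hu
  rw [Finset.mem_filter] at hu
  obtain ⟨hu, b, hb, hx⟩ := hu
  rw [mem_box] at hu
  have hb' := mem_box.1 hb
  have hp : (2 : ℤ) ^ s * 2 ^ (r - s) = 2 ^ r := by
    rw [← pow_add]
    congr 1
    omega
  have hs : (0 : ℤ) < 2 ^ s := by positivity
  have e1 : (z - (2 : ℤ) ^ s • u - b).1 = z.1 - 2 ^ s * u.1 - b.1 := rfl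
  have e2 : (z - (2 : ℤ) ^ s • u - b).2 = z.2 - 2 ^ s * u.2 - b.2 := rfl
  refine ⟨_, hx, ?_, b, hb, e1, e2⟩
  rw [mem_box]
  have f1 : (z - (z - (2 : ℤ) ^ s • u - b)).1 = 2 ^ s * u.1 + b.1 := by
    change z.1 - (z.1 - 2 ^ s * u.1 - b.1) = _
    ring
  have f2 : (z - (z - (2 : ℤ) ^ s • u - b)).2 = 2 ^ s * u.2 + b.2 := by
    change z.2 - (z.2 - 2 ^ s * u.2 - b.2) = _
    ring
  rw [f1, f2]
  have g1 : 0 ≤ 2 ^ s * u.1 := mul_nonneg hs.le hu.1.1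
  have g2 : 0 ≤ 2 ^ s * u.2 := mul_nonneg hs.le hu.2.1
  have g3 : 2 ^ s * (u.1 + 1) ≤ 2 ^ s * 2 ^ (r - s) := mul_le_mul_of_nonneg_left (by omega) hs.le
  have g4 : 2 ^ s * (u.2 + 1) ≤ 2 ^ s * 2 ^ (r - s) := mul_le_mul_of_nonneg_left (by omega) hs.le
  rw [hp] at g3 g4
  refine ⟨⟨by linarith [hb'.1.1], by linarith [hb'.1.2]⟩, by linarith [hb'.2.1], by linarith [hb'.2.2]⟩

/-- one coordinate. -/
private theorem coord {s : ℕ} {z x x' u u' b b' : ℤ} (hb0 : 0 ≤ b) (hb : b < 2 ^ s) (hb0' : 0 ≤ b')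
    (hb' : b' < 2 ^ s) (hx : x = z - 2 ^ s * u - b) (hx' : x' = z - 2 ^ s * u' - b') :
    (2 : ℝ) ^ s * |((u - u' : ℤ) : ℝ)| ≤ |((x - x' : ℤ) : ℝ)| + 2 ^ s ∧
      (u = u' → |((x - x' : ℤ) : ℝ)| ≤ 2 ^ s) := by
  have h1 : |b' - b| ≤ (2 : ℤ) ^ s := by
    rw [abs_le]
    constructor <;> linarith
  have h2 : |((b' - b : ℤ) : ℝ)| ≤ (2 : ℝ) ^ s := by
    rw [← Int.cast_abs]
    exact_mod_cast h1
  constructor
  · have h3 : (2 : ℤ) ^ s * (u - u') = (b' - b) - (x - x') := by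
      rw [hx, hx']
      ring
    have h4 : (2 : ℝ) ^ s * ((u - u' : ℤ) : ℝ) = ((b' - b : ℤ) : ℝ) - ((x - x' : ℤ) : ℝ) := by
      exact_mod_cast h3
    have h5 : (2 : ℝ) ^ s * |((u - u' : ℤ) : ℝ)| = |(2 : ℝ) ^ s * ((u - u' : ℤ) : ℝ)| := by
      rw [abs_mul, abs_of_pos (by positivity : (0 : ℝ) < 2 ^ s)]
    rw [h5, h4]
    have h6 := abs_sub ((b' - b : ℤ) : ℝ) ((x - x' : ℤ) : ℝ)
    linarith
  · rintro rfl
    have h3 : x - x' = b' - b := by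
      rw [hx, hx']
      ring
    rw [h3]
    exact h2

theorem cells_strip {s r : ℕ} (hsr : s ≤ r) {z : G} {T : Finset G} {ρ : ℝ} (hρ : 0 ≤ ρ) {ν : ℂ}
    (hν : ν ≠ 0) (h : ∀ x ∈ T, ∀ y ∈ T, z - x ∈ box r → z - y ∈ box r →
      ∃ a : ℝ, ‖toC (x - y) - a * ν‖ ≤ 2 * ρ) :
    ((cellsMeeting s r z T).card : ℝ) ≤ 2 ^ (r - s) * (8 * ρ / 2 ^ s + 4) := by
  classical
  have hs : (0 : ℝ) < 2 ^ s := by positivity
  have hsub : cellsMeeting s r z T ⊆ box (r - s) := by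
    unfold cellsMeeting
    exact Finset.filter_subset _ _
  have hL : 0 ≤ 2 + 4 * ρ / 2 ^ s := by positivity
  have hfin : (2 : ℝ) ^ (r - s) * ((2 + 4 * ρ / 2 ^ s) + 1) ≤ 2 ^ (r - s) * (8 * ρ / 2 ^ s + 4) := by
    refine mul_le_mul_of_nonneg_left ?_ (by positivity)
    have h1 : 0 ≤ ρ / 2 ^ s := by positivity
    have h2 : 4 * ρ / 2 ^ s = 4 * (ρ / 2 ^ s) := by ring
    have h3 : 8 * ρ / 2 ^ s = 8 * (ρ / 2 ^ s) := by ring
    rw [h2, h3]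
    linarith
  have hdiv : ∀ e : ℝ, 2 ^ s * e ≤ 2 * 2 ^ s + 4 * ρ → e ≤ 2 + 4 * ρ / 2 ^ s := by
    intro e he
    have h1 : 2 + 4 * ρ / 2 ^ s = (2 * 2 ^ s + 4 * ρ) / 2 ^ s := by
      field_simp
    rw [h1, le_div_iff₀ hs]
    linarith
  rcases le_total |ν.im| |ν.re| with hc | hc
  · refine (card_fib1 hL hsub ?_).trans hfin
    intro u hu u' hu' he
    obtain ⟨x, hx, hxb, b, hb, x1, x2⟩ := cm_pt hsr hu
    obtain ⟨x', hx', hxb', b', hb', x1', x2'⟩ := cm_pt hsr hu'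
    have hB := mem_box.1 hb
    have hB' := mem_box.1 hb'
    obtain ⟨a, ha⟩ := h x hx x' hx' hxb hxb'
    obtain ⟨-, k1⟩ := coord hB.1.1 hB.1.2 hB'.1.1 hB'.1.2 x1 x1'
    obtain ⟨k2, -⟩ := coord hB.2.1 hB.2.2 hB'.2.1 hB'.2.2 x2 x2'
    have k1 := k1 he
    have r1 : |((x.1 - x'.1 : ℤ) : ℝ) - a * ν.re| ≤ 2 * ρ := by
      refine le_trans (le_of_eq ?_) ((Complex.abs_re_le_norm _).trans ha)
      congr 1
      simp [toC]
    have r2 : |((x.2 - x'.2 : ℤ) : ℝ) - a * ν.im| ≤ 2 * ρ := by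
      refine le_trans (le_of_eq ?_) ((Complex.abs_im_le_norm _).trans ha)
      congr 1
      simp [toC]
    have r3 : |a * ν.re| ≤ 2 ^ s + 2 * ρ := by
      have h1 := abs_sub ((x.1 - x'.1 : ℤ) : ℝ) (((x.1 - x'.1 : ℤ) : ℝ) - a * ν.re)
      rw [sub_sub_cancel] at h1
      linarith
    have r4 : |a * ν.im| ≤ |a * ν.re| := by
      rw [abs_mul, abs_mul]
      exact mul_le_mul_of_nonneg_left hc (abs_nonneg a)
    have r5 : |((x.2 - x'.2 : ℤ) : ℝ)| ≤ 2 ^ s + 4 * ρ := by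
      have h1 := abs_add_le (((x.2 - x'.2 : ℤ) : ℝ) - a * ν.im) (a * ν.im)
      rw [sub_add_cancel] at h1
      linarith
    exact hdiv _ (by linarith)
  · refine (card_fib2 hL hsub ?_).trans hfin
    intro u hu u' hu' he
    obtain ⟨x, hx, hxb, b, hb, x1, x2⟩ := cm_pt hsr hu
    obtain ⟨x', hx', hxb', b', hb', x1', x2'⟩ := cm_pt hsr hu'
    have hB := mem_box.1 hb
    have hB' := mem_box.1 hb'
    obtain ⟨a, ha⟩ := h x hx x' hx' hxb hxb'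
    obtain ⟨k1, -⟩ := coord hB.1.1 hB.1.2 hB'.1.1 hB'.1.2 x1 x1'
    obtain ⟨-, k2⟩ := coord hB.2.1 hB.2.2 hB'.2.1 hB'.2.2 x2 x2'
    have k2 := k2 he
    have r1 : |((x.1 - x'.1 : ℤ) : ℝ) - a * ν.re| ≤ 2 * ρ := by
      refine le_trans (le_of_eq ?_) ((Complex.abs_re_le_norm _).trans ha)
      congr 1
      simp [toC]
    have r2 : |((x.2 - x'.2 : ℤ) : ℝ) - a * ν.im| ≤ 2 * ρ := by
      refine le_trans (le_of_eq ?_) ((Complex.abs_im_le_norm _).trans ha)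
      congr 1
      simp [toC]
    have r3 : |a * ν.im| ≤ 2 ^ s + 2 * ρ := by
      have h1 := abs_sub ((x.2 - x'.2 : ℤ) : ℝ) (((x.2 - x'.2 : ℤ) : ℝ) - a * ν.im)
      rw [sub_sub_cancel] at h1
      linarith
    have r4 : |a * ν.re| ≤ |a * ν.im| := by
      rw [abs_mul, abs_mul]
      exact mul_le_mul_of_nonneg_left hc (abs_nonneg a)
    have r5 : |((x.1 - x'.1 : ℤ) : ℝ)| ≤ 2 ^ s + 4 * ρ := by
      have h1 := abs_add_le (((x.1 - x'.1 : ℤ) : ℝ) - a * ν.re) (a * ν.re)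
      rw [sub_add_cancel] at h1
      linarith
    exact hdiv _ (by linarith)

theorem cells_point {s r : ℕ} (hsr : s ≤ r) {z : G} {T : Finset G} {ρ : ℝ} (hρ : 0 ≤ ρ)
    (h : ∀ x ∈ T, ∀ y ∈ T, z - x ∈ box r → z - y ∈ box r → ‖toC (x - y)‖ ≤ ρ) :
    ((cellsMeeting s r z T).card : ℝ) ≤ (ρ / 2 ^ s + 3) ^ 2 := by
  classical
  have hs : (0 : ℝ) < 2 ^ s := by positivity
  set C := cellsMeeting s r z T with hC
  have hL : 0 ≤ ρ / 2 ^ s + 1 := by positivity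
  have hdiv : ∀ e : ℝ, 2 ^ s * e ≤ ρ + 2 ^ s → e ≤ ρ / 2 ^ s + 1 := by
    intro e he
    have h1 : ρ / 2 ^ s + 1 = (ρ + 2 ^ s) / 2 ^ s := by
      field_simp
    rw [h1, le_div_iff₀ hs]
    linarith
  have key : ∀ u ∈ C, ∀ u' ∈ C, |((u.1 - u'.1 : ℤ) : ℝ)| ≤ ρ / 2 ^ s + 1 ∧
      |((u.2 - u'.2 : ℤ) : ℝ)| ≤ ρ / 2 ^ s + 1 := by
    intro u hu u' hu'
    obtain ⟨x, hx, hxb, b, hb, x1, x2⟩ := cm_pt hsr hu
    obtain ⟨x', hx', hxb', b', hb', x1', x2'⟩ := cm_pt hsr hu'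
    have hB := mem_box.1 hb
    have hB' := mem_box.1 hb'
    have ha := h x hx x' hx' hxb hxb'
    obtain ⟨k1, -⟩ := coord hB.1.1 hB.1.2 hB'.1.1 hB'.1.2 x1 x1'
    obtain ⟨k2, -⟩ := coord hB.2.1 hB.2.2 hB'.2.1 hB'.2.2 x2 x2'
    have r1 : |((x.1 - x'.1 : ℤ) : ℝ)| ≤ ρ := (abs_fst_le (x - x')).trans ha
    have r2 : |((x.2 - x'.2 : ℤ) : ℝ)| ≤ ρ := (abs_snd_le (x - x')).trans ha
    exact ⟨hdiv _ (by linarith), hdiv _ (by linarith)⟩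
  have h1 : ((C.image Prod.fst).card : ℝ) ≤ ρ / 2 ^ s + 1 + 1 := by
    refine card_le_diam hL ?_
    intro a ha b hb
    obtain ⟨u, hu, rfl⟩ := Finset.mem_image.1 ha
    obtain ⟨u', hu', rfl⟩ := Finset.mem_image.1 hb
    exact (key u hu u' hu').1
  have h2 : ((C.image Prod.snd).card : ℝ) ≤ ρ / 2 ^ s + 1 + 1 := by
    refine card_le_diam hL ?_
    intro a ha b hb
    obtain ⟨u, hu, rfl⟩ := Finset.mem_image.1 ha
    obtain ⟨u', hu', rfl⟩ := Finset.mem_image.1 hb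
    exact (key u hu u' hu').2
  have h3 : C.card ≤ (C.image Prod.fst).card * (C.image Prod.snd).card := by
    rw [← Finset.card_product]
    refine Finset.card_le_card ?_
    intro u hu
    exact Finset.mem_product.2 ⟨Finset.mem_image_of_mem _ hu, Finset.mem_image_of_mem _ hu⟩
  have h4 : (C.card : ℝ) ≤ ((C.image Prod.fst).card : ℝ) * ((C.image Prod.snd).card : ℝ) := by
    exact_mod_cast h3
  have h5 : 0 ≤ ρ / 2 ^ s := by positivity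
  have h6 : ((C.image Prod.fst).card : ℝ) * ((C.image Prod.snd).card : ℝ) ≤
      (ρ / 2 ^ s + 1 + 1) * (ρ / 2 ^ s + 1 + 1) :=
    mul_le_mul h1 h2 (Nat.cast_nonneg _) (by linarith)
  nlinarith

end Pool.Agent.Work.MP_0d53be_an.Full
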