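import Pool.Agent.Work.MP_0d53be_an.Full.G.Line

/-!
# G/Fat: a strip or a dense part of the plane

`fat`: `D` is an `AppGrp` with tolerance `τ > 0`, radius `V`; `J ≥ 1`. Let `u ∈ ℂ`, `‖u‖ = 1`, and
`ℓ > 0`, `e ≥ 0` such that for every integer `j` with `4 |j| ℓ ≤ V` some `d ∈ D` has
`‖d - j ℓ u‖ ≤ e`. Let `t ∈ D`, `t = (a + i b) u` with real `a, b`, and
`|a| ≤ ℓ/2 + e'`, `ℓ ≤ 2 w`, `w - e' ≤ |b| ≤ w + e'`, `4 e' ≤ w`, `e ≤ w/2`, `2 J τ + 2 τ ≤ w/2`,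
`100 J w ≤ V`. Then for every `ζ` with `‖ζ‖ ≤ J w` some `d ∈ D` has `‖d - ζ‖ ≤ 5 w`.

Proof. `|a| ≤ w + w/4`, `(3/4) w ≤ |b| ≤ (5/4) w`, `‖t‖ ≤ 2 w`. Write `ζ = (x + i y) u`,
`|x|, |y| ≤ J w`. Let `j = round (y / b)`: `|y - j b| ≤ |b|/2 ≤ w`, and
`|j| ≤ (4/3) J + 1 ≤ (7/3) J`. Adding `t` (or `-t`) `|j|` times: there is `d₁ ∈ D` with
`‖d₁ - j t‖ ≤ |j| τ` (induction; at every step the norm is at most
`|j| ‖t‖ + |j| τ ≤ 5 J w + 3 J τ ≤ V - τ`). Let `k = round ((x - j a)/ℓ)`: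
`|x - j a - k ℓ| ≤ ℓ/2 ≤ w`, `|k| ℓ ≤ |x| + |j||a| + ℓ ≤ J w + (7/3) J (5/4) w + 2 w ≤ 6 J w`, so
`4 |k| ℓ ≤ 24 J w ≤ V` and some `d₂ ∈ D` has `‖d₂ - k ℓ u‖ ≤ e`. Finally
`‖d₁ + d₂‖ ≤ 5 J w + 3 J τ + 6 J w + e ≤ V - τ` and `d ∈ D` with `‖d - (d₁ + d₂)‖ ≤ τ`:
`‖d - ζ‖ ≤ τ + |j| τ + e + |y - j b| + |x - j a - k ℓ| ≤ (3 J + 1) τ + w/2 + w + w ≤ 5 w`.

`strip_or_plane`: `D` an `AppGrp` (`τ > 0`, `V`), `1 ≤ J`, `N₀ : ℕ`,
`16 J τ + 40 N₀ τ ≤ ρ`, `2 V < 2^N₀ ρ`. Then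
(S) there is `ν ≠ 0` such that every `t ∈ D` with `100 J ‖t‖ ≤ V` has a real `r` with
`‖t - r ν‖ ≤ 2 ρ`, or
(P) there is `w` with `ρ ≤ 4 w`, `100 J w ≤ V`, and for every `ζ` with `‖ζ‖ ≤ J w` there is `d ∈ D`
with `‖d - ζ‖ ≤ 5 w`.

Proof. If every `t ∈ D` with `100 J ‖t‖ ≤ V` has `‖t‖ < ρ`: (S) with `ν = 1`, `r = 0`. Otherwise
let `v ∈ D` have minimal norm among the `t ∈ D` with `ρ ≤ ‖t‖`, `100 J ‖t‖ ≤ V` (`D` finite).
`8 τ ≤ ρ ≤ ‖v‖` and `4 ‖v‖ ≤ V`, so `line_of` gives `n, ν`; `2^n ρ ≤ 2^n ‖v‖ ≤ 2V < 2^N₀ ρ`, so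
`n < N₀`. Put `ℓ = ‖ν‖ ≥ ‖v‖ - τ > 0`, `u = ν/ℓ`, `e = 2 N₀ τ`. Let `t ∈ D`, `100 J ‖t‖ ≤ V`,
`t = (r + i y) u`, `w₀ = |y|`. Let `j = round (r/ℓ)`: `|r - jℓ| ≤ ℓ/2`,
`|j| ℓ ≤ ‖t‖ + ℓ ≤ V/50 + τ`, `4 |j| ℓ ≤ V`. Some `d ∈ D` has `‖d + j ν‖ ≤ e` (apply to `-j`), and
`‖t + d‖ ≤ V - τ`, so some `t'' ∈ D` has `‖t'' - ((r - jℓ) + i y) u‖ ≤ e + τ =: e'`.
Case A: `w₀ ≤ ℓ/2`. Then `‖t''‖ ≤ (3/4) ℓ + e' ≤ (3/4)‖v‖ + 2 e' < ‖v‖` (as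
`‖v‖ ≥ ρ ≥ 40 N₀ τ + 16 τ`, `2 e' = 4 N₀ τ + 2 τ`), and `100 J ‖t''‖ ≤ 100 J ‖v‖ ≤ V`. By the
minimality of `v`, `‖t''‖ < ρ`, so `w₀ ≤ ρ + e' ≤ 2 ρ` and `‖t - (r/ℓ) ν‖ = w₀ ≤ 2 ρ`.
Case B: for some `t` we have `w₀ > ℓ/2`. Put `w = w₀`. Then `4 w ≥ 2 ℓ ≥ 2 (‖v‖ - τ) ≥ ρ`,
`100 J w ≤ 100 J ‖t‖ ≤ V`, and `fat` applies to `t''` (real part `≤ ℓ/2 + e'`, imaginary part
within `e'` of `y`; `4 e' = 8 N₀ τ + 4 τ ≤ ρ/4 ≤ w`, `e = 2 N₀ τ ≤ w/2`,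
`2 J τ + 2 τ ≤ ρ/8 ≤ w/2` because `4 J τ ≤ ρ/4`; use `ρ ≥ 16 J τ + 40 N₀ τ`, `N₀ ≥ 1` from
`2 V < 2^N₀ ρ` and `ρ ≤ V`, or treat `N₀ = 0` separately). This is (P).
If Case A holds for all `t`, we are in (S) with this `ν`.
-/

set_option autoImplicit false

namespace Pool.Agent.Work.MP_0d53be_an.Full

private theorem fat_decomp {u : ℂ} (hu : ‖u‖ = 1) (z : ℂ) :
    ∃ x y : ℝ, z = ((x : ℂ) + y * Complex.I) * u ∧ |x| ≤ ‖z‖ ∧ |y| ≤ ‖z‖ := by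
  have hu0 : u ≠ 0 := by
    intro h
    rw [h, norm_zero] at hu
    norm_num at hu
  have h1 : ‖z / u‖ = ‖z‖ := by rw [norm_div, hu, div_one]
  refine ⟨(z / u).re, (z / u).im, ?_, ?_, ?_⟩
  · rw [Complex.re_add_im, div_mul_cancel₀ _ hu0]
  · rw [← h1]
    exact Complex.abs_re_le_norm _
  · rw [← h1]
    exact Complex.abs_im_le_norm _

private theorem fat_le {u : ℂ} (hu : ‖u‖ = 1) (a b : ℝ) :
    ‖((a : ℂ) + b * Complex.I) * u‖ ≤ |a| + |b| := by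
  rw [norm_mul, hu, mul_one]
  refine (norm_add_le _ _).trans ?_
  rw [norm_mul, Complex.norm_I, mul_one, Complex.norm_real, Complex.norm_real, Real.norm_eq_abs,
    Real.norm_eq_abs]

private theorem fat_re {u : ℂ} (hu : ‖u‖ = 1) (a b : ℝ) :
    |a| ≤ ‖((a : ℂ) + b * Complex.I) * u‖ := by
  rw [norm_mul, hu, mul_one]
  have h := Complex.abs_re_le_norm ((a : ℂ) + b * Complex.I)
  simpa using h

private theorem fat_im {u : ℂ} (hu : ‖u‖ = 1) (a b : ℝ) :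
    |b| ≤ ‖((a : ℂ) + b * Complex.I) * u‖ := by
  rw [norm_mul, hu, mul_one]
  have h := Complex.abs_im_le_norm ((a : ℂ) + b * Complex.I)
  simpa using h

private theorem fat_34 {u : ℂ} (hu : ‖u‖ = 1) {a b l : ℝ} (hl : 0 ≤ l) (ha : |a| ≤ l / 2)
    (hb : |b| ≤ l / 2) : ‖((a : ℂ) + b * Complex.I) * u‖ ≤ 3 / 4 * l := by
  rw [norm_mul, hu, mul_one]
  have h1 : ‖(a : ℂ) + b * Complex.I‖ ^ 2 = a ^ 2 + b ^ 2 := by
    rw [← Complex.normSq_eq_norm_sq, Complex.normSq_add_mul_I]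
  have h2 : a ^ 2 ≤ (l / 2) ^ 2 := sq_le_sq' (abs_le.1 ha).1 (abs_le.1 ha).2
  have h3 : b ^ 2 ≤ (l / 2) ^ 2 := sq_le_sq' (abs_le.1 hb).1 (abs_le.1 hb).2
  refine abs_le_of_sq_le_sq' (a := ‖(a : ℂ) + b * Complex.I‖) ?_ (by positivity) |>.2
  rw [h1]
  nlinarith [sq_nonneg l]

/-- adding a fixed element several times. -/
private theorem fat_mul {D : Set ℂ} {τ V : ℝ} (hD : AppGrp D τ V) (hτ : 0 < τ) {t : ℂ}
    (ht : t ∈ D) {M : ℝ} (hM : M * (‖t‖ + τ) ≤ V) :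
    ∀ j : ℤ, |(j : ℝ)| ≤ M → ∃ d ∈ D, ‖d - (j : ℂ) * t‖ ≤ |(j : ℝ)| * τ := by
  have hnat : ∀ m : ℕ, (m : ℝ) ≤ M → ∃ d ∈ D, ‖d - (m : ℂ) * t‖ ≤ m * τ := by
    intro m
    induction m with
    | zero =>
      intro _
      exact ⟨0, hD.zero, by simp⟩
    | succ m ih =>
      intro hm
      push_cast at hm
      obtain ⟨d, hd, hd2⟩ := ih (by linarith)
      have h0 : 0 ≤ ‖t‖ + τ := add_nonneg (norm_nonneg _) hτ.le
      have h1 : ((m : ℝ) + 1) * (‖t‖ + τ) ≤ M * (‖t‖ + τ) := mul_le_mul_of_nonneg_right hm h0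
      have e1 : d + t = ((m : ℂ) + 1) * t + (d - (m : ℂ) * t) := by ring
      have e2 : ‖((m : ℂ) + 1) * t‖ = ((m : ℝ) + 1) * ‖t‖ := by
        have h2 : ((m : ℂ) + 1) = ((m + 1 : ℕ) : ℂ) := by push_cast; ring
        rw [h2, norm_mul, Complex.norm_natCast]
        push_cast
        ring
      have e3 : ‖d + t‖ ≤ ((m : ℝ) + 1) * ‖t‖ + m * τ := by
        rw [e1, ← e2]
        exact (norm_add_le _ _).trans (add_le_add le_rfl hd2)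
      obtain ⟨d'', hd'', hd3⟩ := hD.add d hd t ht (by nlinarith)
      refine ⟨d'', hd'', ?_⟩
      have e4 : d'' - ((m + 1 : ℕ) : ℂ) * t = (d'' - (d + t)) + (d - (m : ℂ) * t) := by
        push_cast
        ring
      rw [e4]
      refine (norm_add_le _ _).trans ((add_le_add hd3 hd2).trans ?_)
      push_cast
      linarith
  intro j hj
  rcases Int.eq_nat_or_neg j with ⟨k, rfl | rfl⟩
  · have hc : |(((k : ℤ)) : ℝ)| = k := by rw [Int.cast_natCast, Nat.abs_cast]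
    rw [hc] at hj ⊢
    obtain ⟨d, hd, hd2⟩ := hnat k hj
    exact ⟨d, hd, by rwa [Int.cast_natCast]⟩
  · have hc : |((-(k : ℤ) : ℤ) : ℝ)| = k := by
      rw [Int.cast_neg, Int.cast_natCast, abs_neg, Nat.abs_cast]
    rw [hc] at hj ⊢
    obtain ⟨d, hd, hd2⟩ := hnat k hj
    refine ⟨-d, hD.neg d hd, ?_⟩
    rw [Int.cast_neg, Int.cast_natCast]
    have h1 : -d - -(k : ℂ) * t = -(d - (k : ℂ) * t) := by ring
    rw [h1, norm_neg]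
    exact hd2

/-- rounding. -/
private theorem fat_round {x l : ℝ} (hl : l ≠ 0) :
    |x - (round (x / l) : ℝ) * l| ≤ |l| / 2 := by
  have h1 := abs_sub_round (x / l)
  have h2 : x - (round (x / l) : ℝ) * l = (x / l - round (x / l)) * l := by
    field_simp
  rw [h2, abs_mul]
  have h3 : |x / l - round (x / l)| * |l| ≤ 1 / 2 * |l| :=
    mul_le_mul_of_nonneg_right h1 (abs_nonneg _)
  linarith

theorem fat {D : Set ℂ} {τ V : ℝ} (hD : AppGrp D τ V) (hτ : 0 < τ) {J : ℝ} (hJ : 1 ≤ J)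
    {u : ℂ} (hu : ‖u‖ = 1) {ℓ e e' w : ℝ} (hℓ : 0 < ℓ) (he : 0 ≤ e)
    (hline : ∀ j : ℤ, 4 * (|(j : ℝ)| * ℓ) ≤ V → ∃ d ∈ D, ‖d - (j : ℂ) * (ℓ * u)‖ ≤ e)
    {a b : ℝ} (ht : ((a : ℂ) + b * Complex.I) * u ∈ D) (ha : |a| ≤ ℓ / 2 + e') (hℓw : ℓ ≤ 2 * w)
    (hb1 : w - e' ≤ |b|) (hb2 : |b| ≤ w + e') (h4 : 4 * e' ≤ w) (he2 : 2 * e ≤ w)
    (hJτ : 2 * J * τ + 2 * τ ≤ w / 2) (hV : 100 * J * w ≤ V) :
    ∀ ζ : ℂ, ‖ζ‖ ≤ J * w → ∃ d ∈ D, ‖d - ζ‖ ≤ 5 * w := by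
  have hw : 0 < w := by linarith
  have hb0 : b ≠ 0 := by
    intro h
    rw [h, abs_zero] at hb1
    linarith
  have hJw : w ≤ J * w := by nlinarith
  have hJτ0 : τ ≤ J * τ := by nlinarith
  intro ζ hζ
  obtain ⟨x, y, hxy, hx, hy⟩ := fat_decomp hu ζ
  set t : ℂ := ((a : ℂ) + b * Complex.I) * u with htdef
  have htn : ‖t‖ ≤ 5 / 2 * w := by
    refine (fat_le hu a b).trans ?_
    linarith
  set j : ℤ := round (y / b) with hj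
  have hjb := fat_round (x := y) hb0
  rw [← hj] at hjb
  have hjJ : |(j : ℝ)| ≤ 7 / 3 * J := by
    have h1 : |(j : ℝ)| * |b| ≤ |y| + |b| / 2 := by
      rw [← abs_mul]
      have h2 : (j : ℝ) * b = y - (y - j * b) := by ring
      rw [h2]
      exact (abs_sub _ _).trans (by linarith)
    have h3 : |y| ≤ J * w := hy.trans hζ
    have h4 : 3 / 4 * w ≤ |b| := by linarith
    by_contra hcon
    push Not at hcon
    have h5 : (7 / 3 * J - 1 / 2) * |b| < (|(j : ℝ)| - 1 / 2) * |b| := by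
      apply mul_lt_mul_of_pos_right (by linarith)
      linarith
    have h6 : (7 / 3 * J - 1 / 2) * (3 / 4 * w) ≤ (7 / 3 * J - 1 / 2) * |b| :=
      mul_le_mul_of_nonneg_left h4 (by linarith)
    nlinarith
  obtain ⟨d₁, hd₁, hd₁'⟩ := fat_mul hD hτ ht (M := 7 / 3 * J) (by
    have h1 : 7 / 3 * J * (‖t‖ + τ) ≤ 7 / 3 * J * (5 / 2 * w + τ) :=
      mul_le_mul_of_nonneg_left (by linarith) (by linarith)
    refine h1.trans ?_
    nlinarith) j hjJ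
  set k : ℤ := round ((x - j * a) / ℓ) with hk
  have hkl := fat_round (x := x - j * a) hℓ.ne'
  rw [← hk, abs_of_pos hℓ] at hkl
  have hja : |(j : ℝ)| * |a| ≤ 7 / 3 * J * (5 / 4 * w) :=
    mul_le_mul hjJ (by linarith) (abs_nonneg _) (by linarith)
  have hkk : |(k : ℝ)| * ℓ ≤ 5 * (J * w) := by
    have h1 : |(k : ℝ)| * ℓ = |x - (j * a) - (x - j * a - k * ℓ)| := by
      rw [show x - (j * a) - (x - j * a - k * ℓ) = k * ℓ by ring, abs_mul, abs_of_pos hℓ]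
    rw [h1]
    have h2 : |x - (j * a) - (x - j * a - k * ℓ)| ≤ |x| + |(j : ℝ)| * |a| + ℓ / 2 := by
      refine (abs_sub _ _).trans (add_le_add ((abs_sub _ _).trans ?_) hkl)
      rw [abs_mul]
    have h3 : |x| ≤ J * w := hx.trans hζ
    linarith
  obtain ⟨d₂, hd₂, hd₂'⟩ := hline k (by linarith)
  have hjτ : |(j : ℝ)| * τ ≤ 7 / 3 * J * τ := mul_le_mul_of_nonneg_right hjJ hτ.le
  have hjt : |(j : ℝ)| * ‖t‖ ≤ 7 / 3 * J * (5 / 2 * w) :=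
    mul_le_mul hjJ htn (norm_nonneg _) (by linarith)
  have hn1 : ‖d₁‖ ≤ 7 / 3 * J * (5 / 2 * w) + 7 / 3 * J * τ := by
    have h1 : d₁ = (j : ℂ) * t + (d₁ - (j : ℂ) * t) := by ring
    rw [h1]
    refine (norm_add_le _ _).trans (add_le_add ?_ (hd₁'.trans hjτ))
    rw [norm_mul, Complex.norm_intCast]
    exact hjt
  have hn2 : ‖d₂‖ ≤ 5 * (J * w) + e := by
    have h1 : d₂ = (k : ℂ) * (ℓ * u) + (d₂ - (k : ℂ) * (ℓ * u)) := by ring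
    rw [h1]
    refine (norm_add_le _ _).trans (add_le_add ?_ hd₂')
    rw [norm_mul, norm_mul, hu, mul_one, Complex.norm_intCast, Complex.norm_real,
      Real.norm_eq_abs, abs_of_pos hℓ]
    exact hkk
  obtain ⟨d, hd, hd'⟩ := hD.add d₁ hd₁ d₂ hd₂ (by
    refine (norm_add_le _ _).trans ?_
    linarith)
  refine ⟨d, hd, ?_⟩
  have e1 : d - ζ = ((d - (d₁ + d₂)) + (d₁ - (j : ℂ) * t)) + (d₂ - (k : ℂ) * (ℓ * u)) -
      (((x - j * a - k * ℓ : ℝ) : ℂ) + ((y - j * b : ℝ) : ℂ) * Complex.I) * u := by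
    rw [hxy, htdef]
    push_cast
    ring
  rw [e1]
  have e2 := fat_le hu (x - j * a - k * ℓ) (y - j * b)
  have e3 : ‖((d - (d₁ + d₂)) + (d₁ - (j : ℂ) * t)) + (d₂ - (k : ℂ) * (ℓ * u))‖ ≤
      τ + 7 / 3 * J * τ + e :=
    (norm_add_le _ _).trans (add_le_add ((norm_add_le _ _).trans
      (add_le_add hd' (hd₁'.trans hjτ))) hd₂')
  refine (norm_sub_le _ _).trans ?_
  linarith

theorem strip_or_plane {D : Set ℂ} {τ V : ℝ} (hD : AppGrp D τ V) (hτ : 0 < τ) {J ρ : ℝ}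
    (hJ : 1 ≤ J) {N₀ : ℕ} (hρ : 16 * J * τ + 40 * N₀ * τ ≤ ρ) (hN : 2 * V < 2 ^ N₀ * ρ) :
    (∃ ν : ℂ, ν ≠ 0 ∧ ∀ t ∈ D, 100 * J * ‖t‖ ≤ V → ∃ r : ℝ, ‖t - r * ν‖ ≤ 2 * ρ) ∨
    (∃ w : ℝ, ρ ≤ 4 * w ∧ 100 * J * w ≤ V ∧
      ∀ ζ : ℂ, ‖ζ‖ ≤ J * w → ∃ d ∈ D, ‖d - ζ‖ ≤ 5 * w) := by
  have hρ0 : 0 < ρ := by
    have h1 : 0 < J * τ := by positivity
    have h2 : 0 ≤ N₀ * τ := by positivity
    linarith
  by_cases hall : ∀ t ∈ D, 100 * J * ‖t‖ ≤ V → ‖t‖ < ρ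
  · left
    refine ⟨1, one_ne_zero, fun t ht htV => ⟨0, ?_⟩⟩
    have := hall t ht htV
    simp only [Complex.ofReal_zero, zero_mul, sub_zero]
    linarith
  push Not at hall
  obtain ⟨t0, ht0, ht0V, ht0ρ⟩ := hall
  obtain ⟨v, ⟨hvD, hvρ, hvV⟩, hvmin⟩ := Set.exists_min_image
    {t | t ∈ D ∧ ρ ≤ ‖t‖ ∧ 100 * J * ‖t‖ ≤ V} (fun t => ‖t‖)
    (hD.fin.subset fun t ht => ht.1) ⟨t0, ht0, ht0ρ, ht0V⟩
  have hJτ : τ ≤ J * τ := by nlinarith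
  have hNτ : 0 ≤ N₀ * τ := by positivity
  have hv0 : 0 < ‖v‖ := by linarith
  have hv100 : 100 * ‖v‖ ≤ V := by nlinarith
  have h8 : 8 * τ ≤ ‖v‖ := by linarith
  obtain ⟨n, ν, hν, hn2, hnτ, hl⟩ := line_of hD hτ hvD h8 (by linarith)
  have hnN : n < N₀ := by
    have h1 : (2 : ℝ) ^ n * ρ < 2 ^ N₀ * ρ := by
      have h2 : (2 : ℝ) ^ n * ρ ≤ 2 ^ n * ‖v‖ := mul_le_mul_of_nonneg_left hvρ (by positivity)
      linarith
    have h3 : (2 : ℝ) ^ n < 2 ^ N₀ := lt_of_mul_lt_mul_right h1 hρ0.le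
    exact (pow_lt_pow_iff_right₀ (one_lt_two (α := ℝ))).1 h3
  have hN1 : (n : ℝ) + 1 ≤ N₀ := by exact_mod_cast hnN
  have hn0 : (0 : ℝ) ≤ n := Nat.cast_nonneg n
  have hnN' : (n : ℝ) * τ + τ ≤ N₀ * τ := by nlinarith
  have hnτ0 : 0 ≤ (n : ℝ) * τ := by positivity
  have hντ : ‖v‖ ≤ ‖ν‖ + τ := by
    have h1 : v = ν - (ν - v) := by ring
    calc ‖v‖ = ‖ν - (ν - v)‖ := by rw [← h1]
      _ ≤ _ := (norm_sub_le _ _).trans (add_le_add le_rfl hν)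
  have hντ2 : ‖ν‖ ≤ ‖v‖ + τ := by
    have h1 : ν = v + (ν - v) := by ring
    calc ‖ν‖ = ‖v + (ν - v)‖ := by rw [← h1]
      _ ≤ _ := (norm_add_le _ _).trans (add_le_add le_rfl hν)
  set ℓ : ℝ := ‖ν‖ with hℓdef
  have hℓ : 0 < ℓ := by linarith
  have hν0 : ν ≠ 0 := by
    intro h
    rw [h, norm_zero] at hℓdef
    linarith
  set u : ℂ := ν / ℓ with hudef
  have hℓc : (ℓ : ℂ) ≠ 0 := by exact_mod_cast hℓ.ne'
  have hu : ‖u‖ = 1 := by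
    rw [hudef, norm_div, Complex.norm_real, Real.norm_eq_abs, abs_of_pos hℓ, ← hℓdef,
      div_self hℓ.ne']
  have hℓu : (ℓ : ℂ) * u = ν := by
    rw [hudef]
    field_simp
  have hline : ∀ j : ℤ, 4 * (|(j : ℝ)| * ℓ) ≤ V →
      ∃ d ∈ D, ‖d - (j : ℂ) * (ℓ * u)‖ ≤ 2 * N₀ * τ := by
    intro j hj
    obtain ⟨d, hd, hd2⟩ := hl j hj
    refine ⟨d, hd, ?_⟩
    rw [hℓu]
    linarith
  -- reduction modulo the line
  have hred : ∀ t ∈ D, 100 * J * ‖t‖ ≤ V → ∀ r y : ℝ, t = ((r : ℂ) + y * Complex.I) * u →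
      |r| ≤ ‖t‖ → ∃ t' ∈ D, ∃ q : ℝ, |q| ≤ ℓ / 2 ∧
        ‖t' - ((q : ℂ) + y * Complex.I) * u‖ ≤ 2 * N₀ * τ + τ := by
    intro t ht htV r y hty hr
    have ht100 : 100 * ‖t‖ ≤ V := by
      have := norm_nonneg t
      nlinarith
    set j : ℤ := round (r / ℓ) with hj
    have hjr := fat_round (x := r) hℓ.ne'
    rw [← hj, abs_of_pos hℓ] at hjr
    have hjℓ : |(j : ℝ)| * ℓ ≤ ‖t‖ + ℓ / 2 := by
      have h1 : |(j : ℝ)| * ℓ = |r - (r - j * ℓ)| := by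
        rw [show r - (r - j * ℓ) = j * ℓ by ring, abs_mul, abs_of_pos hℓ]
      rw [h1]
      refine (abs_sub _ _).trans ?_
      linarith
    obtain ⟨d, hd, hd2⟩ := hline (-j) (by
      rw [Int.cast_neg, abs_neg]
      linarith)
    rw [Int.cast_neg] at hd2
    have hdn : ‖d‖ ≤ |(j : ℝ)| * ℓ + 2 * N₀ * τ := by
      have h1 : d = -(j : ℂ) * (ℓ * u) + (d - -(j : ℂ) * (ℓ * u)) := by ring
      rw [h1]
      refine (norm_add_le _ _).trans (add_le_add ?_ hd2)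
      rw [norm_mul, norm_mul, norm_neg, hu, mul_one, Complex.norm_intCast, Complex.norm_real,
        Real.norm_eq_abs, abs_of_pos hℓ]
    obtain ⟨t', ht', ht2⟩ := hD.add t ht d hd (by
      refine (norm_add_le _ _).trans ?_
      linarith)
    refine ⟨t', ht', r - j * ℓ, hjr, ?_⟩
    have e1 : t' - (((r - j * ℓ : ℝ) : ℂ) + y * Complex.I) * u =
        (d - -(j : ℂ) * (ℓ * u)) + (t' - (t + d)) := by
      rw [hty]
      push_cast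
      ring
    rw [e1]
    exact (norm_add_le _ _).trans (add_le_add hd2 ht2)
  by_cases hA : ∀ t ∈ D, 100 * J * ‖t‖ ≤ V → ∀ r y : ℝ, t = ((r : ℂ) + y * Complex.I) * u →
      |r| ≤ ‖t‖ → |y| ≤ ℓ / 2
  · left
    refine ⟨ν, hν0, fun t ht htV => ?_⟩
    obtain ⟨r, y, hty, hr, -⟩ := fat_decomp hu t
    have hy := hA t ht htV r y hty hr
    obtain ⟨t', ht', q, hq, hq2⟩ := hred t ht htV r y hty hr
    have h34 := fat_34 hu hℓ.le hq hy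
    have ht'n : ‖t'‖ ≤ 3 / 4 * ℓ + (2 * N₀ * τ + τ) := by
      have h1 : t' = ((q : ℂ) + y * Complex.I) * u + (t' - ((q : ℂ) + y * Complex.I) * u) := by
        ring
      rw [h1]
      exact (norm_add_le _ _).trans (add_le_add h34 hq2)
    have ht'v : ‖t'‖ < ‖v‖ := by linarith
    have ht'ρ : ‖t'‖ < ρ := by
      by_contra hcon
      push Not at hcon
      have h1 := hvmin t' ⟨ht', hcon, by nlinarith⟩
      linarith
    have hyn : |y| ≤ ‖t'‖ + (2 * N₀ * τ + τ) := by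
      refine (fat_im hu q y).trans ?_
      have h1 : ((q : ℂ) + y * Complex.I) * u = t' - (t' - ((q : ℂ) + y * Complex.I) * u) := by
        ring
      rw [h1]
      exact (norm_sub_le _ _).trans (add_le_add le_rfl hq2)
    refine ⟨r / ℓ, ?_⟩
    have e1 : t - ((r / ℓ : ℝ) : ℂ) * ν = (((0 : ℝ) : ℂ) + y * Complex.I) * u := by
      rw [hty, ← hℓu]
      push_cast
      field_simp
      ring
    rw [e1]
    refine (fat_le hu 0 y).trans ?_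
    rw [abs_zero]
    linarith
  · right
    push Not at hA
    obtain ⟨t, ht, htV, r, y, hty, hr, hy⟩ := hA
    obtain ⟨t', ht', q, hq, hq2⟩ := hred t ht htV r y hty hr
    obtain ⟨x', y', hxy', -, -⟩ := fat_decomp hu (t' - ((q : ℂ) + y * Complex.I) * u)
    have hx' : |x'| ≤ 2 * N₀ * τ + τ := by
      refine (fat_re hu x' y').trans ?_
      rw [← hxy']
      exact hq2
    have hy' : |y'| ≤ 2 * N₀ * τ + τ := by
      refine (fat_im hu x' y').trans ?_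
      rw [← hxy']
      exact hq2
    have ht'eq : t' = (((q + x' : ℝ) : ℂ) + ((y + y' : ℝ) : ℂ) * Complex.I) * u := by
      have h1 : t' = ((q : ℂ) + y * Complex.I) * u + (t' - ((q : ℂ) + y * Complex.I) * u) := by
        ring
      rw [h1, hxy']
      push_cast
      ring
    rw [ht'eq] at ht'
    have hyt : |y| ≤ ‖t‖ := by
      rw [hty]
      exact fat_im hu r y
    have hw1 : ρ ≤ 4 * |y| := by linarith
    have hw2 : 100 * J * |y| ≤ V := by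
      refine le_trans ?_ htV
      exact mul_le_mul_of_nonneg_left hyt (by linarith)
    refine ⟨|y|, hw1, hw2, ?_⟩
    refine fat hD hτ hJ hu hℓ (e := 2 * N₀ * τ) (e' := 2 * N₀ * τ + τ) (by linarith) hline ht'
      ?_ (by linarith) ?_ ?_ (by linarith) (by linarith) (by linarith) hw2
    · exact (abs_add_le _ _).trans (add_le_add hq hx')
    · have h1 : |y| ≤ |y + y'| + |y'| := by
        have h2 : y = (y + y') - y' := by ring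
        calc |y| = |(y + y') - y'| := by rw [← h2]
          _ ≤ _ := abs_sub _ _
      linarith
    · exact (abs_add_le _ _).trans (add_le_add le_rfl hy')

end Pool.Agent.Work.MP_0d53be_an.Full
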