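import Pool.Agent.Work.MP_0d53be_an.Full.Defs

/-!
# G/Line: approximate local groups contain long lines

Let `D` be an `AppGrp` with tolerance `τ > 0` and radius `V`, `v ∈ D`, `8 τ ≤ ‖v‖`, `4 ‖v‖ ≤ V`.
Then there are `n : ℕ` and `ν : ℂ` with `‖ν - v‖ ≤ τ`, `2^n ‖v‖ ≤ 2 V`, `4 n τ ≤ V` and, for every
integer `j` with `4 |j| ‖ν‖ ≤ V`, some `d ∈ D` with `‖d - j ν‖ ≤ 2 n τ`.

Proof. Define `v_0 = v` and, as long as `2 ‖v_i‖ ≤ V - τ`, choose `v_{i+1} ∈ D` with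
`‖v_{i+1} - 2 v_i‖ ≤ τ` (`add` with `d = d' = v_i`). Then `‖v_{i+1}‖ - τ ≥ 2 (‖v_i‖ - τ)`, so
`‖v_i‖ - τ ≥ 2^i (‖v‖ - τ) ≥ 2^i (7/8) ‖v‖`; since `‖v_i‖ ≤ V` the process stops: there is `n` with
`v_0, …, v_n ∈ D`, `‖v_{i+1} - 2 v_i‖ ≤ τ` for `i < n`, and `2 ‖v_n‖ > V - τ`. (Formally: take `n`
maximal such that a sequence `v_0, …, v_n` exists; the bound `2^n (7/8)‖v‖ ≤ V` shows that the set
of the `n` is bounded.) From `2^n (7/8) ‖v‖ ≤ V`: `2^n ‖v‖ ≤ 2 V`, and `7 * 2^n τ ≤ V`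
(as `8 τ ≤ ‖v‖`), so `4 n τ ≤ V` because `n ≤ 2^n`... (`4 n ≤ 7 * 2^n`).
Put `ν = v_n / 2^n`. By downward induction on `i` (from `n` to `0`): `‖v_i - 2^i ν‖ ≤ τ`: for `i = n`
it is `0`, and `v_i - 2^i ν = ((2 v_i - v_{i+1}) + (v_{i+1} - 2^(i+1) ν)) / 2`. In particular
`‖v - ν‖ ≤ τ`.
Let `0 ≤ j`, `4 j ‖ν‖ ≤ V`. Since `2^n ‖ν‖ = ‖v_n‖ > (V - τ)/2 ≥ V/4` (as `8 τ ≤ ‖v‖ ≤ V/4`),
`j < 2^n`. Claim: for every `i ≤ n` and every `m < 2^i`... with the binary expansion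
`j = ∑_{i<n} b_i 2^i` add the `v_i`, `b_i = 1`, one after the other (in any order, e.g. from low to
high): if `d ∈ D`, `‖d - m ν‖ ≤ e`, and `m' = m + 2^i ≤ j`, then
`‖d + v_i‖ ≤ m' ‖ν‖ + e + τ ≤ V/4 + e + τ ≤ V - τ` as long as `e ≤ 2 n τ ≤ V/2`
(`τ ≤ V/32`), so some `d' ∈ D` has
`‖d' - m' ν‖ ≤ ‖d' - (d + v_i)‖ + ‖d - m ν‖ + ‖v_i - 2^i ν‖ ≤ e + 2 τ`. At most `n` steps from
`d = 0 ∈ D`. (Induction on `i ≤ n` for all `j < 2^i`, using `j = j mod 2^(i-1) + b 2^(i-1)`, with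
error `2 i τ`.)
For negative `j` use `neg`.
-/

set_option autoImplicit false

namespace Pool.Agent.Work.MP_0d53be_an.Full

theorem line_of {D : Set ℂ} {τ V : ℝ} (hD : AppGrp D τ V) (hτ : 0 < τ) {v : ℂ} (hv : v ∈ D)
    (h8 : 8 * τ ≤ ‖v‖) (h4 : 4 * ‖v‖ ≤ V) :
    ∃ n : ℕ, ∃ ν : ℂ, ‖ν - v‖ ≤ τ ∧ 2 ^ n * ‖v‖ ≤ 2 * V ∧ 4 * n * τ ≤ V ∧
      ∀ j : ℤ, 4 * (|(j : ℝ)| * ‖ν‖) ≤ V → ∃ d ∈ D, ‖d - (j : ℂ) * ν‖ ≤ 2 * n * τ := by
  have hv0 : 0 < ‖v‖ := by linarith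
  have hV0 : 0 < V := by linarith
  -- the chain
  have hnx : ∀ d : ℂ, ∃ d' : ℂ, d ∈ D → 2 * ‖d‖ ≤ V - τ → d' ∈ D ∧ ‖d' - 2 * d‖ ≤ τ := by
    intro d
    by_cases hd : d ∈ D ∧ 2 * ‖d‖ ≤ V - τ
    · obtain ⟨d', h1, h2⟩ := hD.add d hd.1 d hd.1 (by
        refine le_trans (norm_add_le _ _) ?_
        linarith [hd.2])
      refine ⟨d', fun _ _ => ⟨h1, ?_⟩⟩
      rwa [two_mul]
    · exact ⟨0, fun h1 h2 => absurd ⟨h1, h2⟩ hd⟩
  choose nx hnx' using hnx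
  obtain ⟨f, hf0, hfs⟩ : ∃ f : ℕ → ℂ, f 0 = v ∧ ∀ i, f (i + 1) = nx (f i) :=
    ⟨fun i => nx^[i] v, rfl, fun i => Function.iterate_succ_apply' nx i v⟩
  -- growth
  have hmem : ∀ n, (∀ i < n, 2 * ‖f i‖ ≤ V - τ) → ∀ i ≤ n, f i ∈ D := by
    intro n hn i
    induction i with
    | zero =>
      intro _
      rw [hf0]
      exact hv
    | succ i ih =>
      intro hi
      rw [hfs]
      exact (hnx' (f i) (ih (by omega)) (hn i (by omega))).1
  have hstep : ∀ n, (∀ i < n, 2 * ‖f i‖ ≤ V - τ) → ∀ i < n, ‖f (i + 1) - 2 * f i‖ ≤ τ := by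
    intro n hn i hi
    rw [hfs]
    exact (hnx' (f i) (hmem n hn i hi.le) (hn i hi)).2
  have hgrow : ∀ n, (∀ i < n, 2 * ‖f i‖ ≤ V - τ) → ∀ i ≤ n, 2 ^ i * (‖v‖ - τ) ≤ ‖f i‖ - τ := by
    intro n hn i
    induction i with
    | zero =>
      intro _
      rw [hf0, pow_zero, one_mul]
    | succ i ih =>
      intro hi
      have h1 := ih (by omega)
      have h2 := hstep n hn i (by omega)
      have h3 : 2 * ‖f i‖ ≤ ‖f (i + 1)‖ + τ := by
        have h4 : ‖2 * f i‖ ≤ ‖f (i + 1)‖ + ‖f (i + 1) - 2 * f i‖ := by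
          have h5 : 2 * f i = f (i + 1) - (f (i + 1) - 2 * f i) := by ring
          calc ‖2 * f i‖ = ‖f (i + 1) - (f (i + 1) - 2 * f i)‖ := by rw [← h5]
            _ ≤ _ := norm_sub_le _ _
        rw [norm_mul, Complex.norm_ofNat] at h4
        linarith
      rw [pow_succ]
      nlinarith
  have hex : ∃ n, ¬ 2 * ‖f n‖ ≤ V - τ := by
    by_contra hcon
    push Not at hcon
    obtain ⟨n, hn⟩ := pow_unbounded_of_one_lt (V / (‖v‖ - τ)) (one_lt_two (α := ℝ))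
    have h1 := hgrow n (fun i _ => hcon i) n le_rfl
    have h2 := hcon n
    have h3 : 0 < ‖v‖ - τ := by linarith
    rw [div_lt_iff₀ h3] at hn
    have h4 := norm_nonneg (f n)
    linarith
  classical
  obtain ⟨n, hn1, hn2⟩ : ∃ n, (¬ 2 * ‖f n‖ ≤ V - τ) ∧ ∀ i < n, 2 * ‖f i‖ ≤ V - τ := by
    refine ⟨Nat.find hex, Nat.find_spec hex, ?_⟩
    intro i hi
    exact not_not.1 (Nat.find_min hex hi)
  have hmemn := hmem n hn2
  have hstepn := hstep n hn2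
  have hgrown := hgrow n hn2 n le_rfl
  have hfn : ‖f n‖ ≤ V := hD.bd _ (hmemn n le_rfl)
  have h78 : 2 ^ n * ‖v‖ * 7 ≤ 8 * V := by
    have h1 : (0 : ℝ) < 2 ^ n := by positivity
    have h2 : 2 ^ n * (8 * τ) ≤ 2 ^ n * ‖v‖ := mul_le_mul_of_nonneg_left h8 h1.le
    nlinarith
  have h2pos : (0 : ℝ) < 2 ^ n := by positivity
  have hcn : ((2 : ℂ) ^ n) ≠ 0 := pow_ne_zero _ two_ne_zero
  set ν : ℂ := f n / 2 ^ n with hν
  have hνn : (2 : ℂ) ^ n * ν = f n := by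
    rw [hν]
    field_simp
  have hback : ∀ k i, i + k = n → ‖f i - 2 ^ i * ν‖ ≤ τ := by
    intro k
    induction k with
    | zero =>
      intro i hi
      rw [add_zero] at hi
      rw [hi, hνn, sub_self, norm_zero]
      exact hτ.le
    | succ k ih =>
      intro i hi
      have h1 := ih (i + 1) (by omega)
      have h2 := hstepn i (by omega)
      have h3 : 2 * (f i - 2 ^ i * ν) = (f (i + 1) - 2 ^ (i + 1) * ν) - (f (i + 1) - 2 * f i) := by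
        ring
      have h4 : ‖2 * (f i - 2 ^ i * ν)‖ ≤ τ + τ := by
        rw [h3]
        exact (norm_sub_le _ _).trans (add_le_add h1 h2)
      rw [norm_mul, Complex.norm_ofNat] at h4
      linarith
  have hτn : 4 * n * τ ≤ V := by
    have h1 : (n : ℝ) ≤ 2 ^ n := by
      exact_mod_cast Nat.lt_two_pow_self.le
    have h2 : (n : ℝ) * τ ≤ 2 ^ n * τ := mul_le_mul_of_nonneg_right h1 hτ.le
    have h3 : 2 ^ n * (8 * τ) ≤ 2 ^ n * ‖v‖ := mul_le_mul_of_nonneg_left h8 h2pos.le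
    linarith
  have hνnorm : 2 ^ n * ‖ν‖ = ‖f n‖ := by
    rw [← hνn, norm_mul, norm_pow, Complex.norm_ofNat]
  have hlow : V < 4 * (2 ^ n * ‖ν‖) := by
    rw [hνnorm]
    push Not at hn1
    linarith
  -- the multiples
  have hmult : ∀ i ≤ n, ∀ j : ℕ, j < 2 ^ i → 4 * (j * ‖ν‖) ≤ V →
      ∃ d ∈ D, ‖d - (j : ℂ) * ν‖ ≤ 2 * i * τ := by
    intro i
    induction i with
    | zero =>
      intro _ j hj _
      have : j = 0 := by simpa using hj
      subst this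
      exact ⟨0, hD.zero, by simp⟩
    | succ i ih =>
      intro hi j hj hjV
      by_cases hji : j < 2 ^ i
      · obtain ⟨d, hd, hd2⟩ := ih (by omega) j hji hjV
        refine ⟨d, hd, hd2.trans ?_⟩
        push_cast
        nlinarith
      · obtain ⟨j', rfl⟩ := Nat.exists_eq_add_of_le (Nat.le_of_not_lt hji)
        have hj' : j' < 2 ^ i := by
          rw [pow_succ] at hj
          omega
        have hνnn := norm_nonneg ν
        have hjV' : 4 * ((j' : ℝ) * ‖ν‖) ≤ V := by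
          refine le_trans ?_ hjV
          push_cast
          have : (0 : ℝ) ≤ 2 ^ i := by positivity
          nlinarith
        obtain ⟨d, hd, hd2⟩ := ih (by omega) j' hj' hjV'
        have hfi := hback (n - i) i (by omega)
        have hin : ((i : ℝ) + 1) ≤ n := by exact_mod_cast hi
        have hinτ : ((i : ℝ) + 1) * τ ≤ n * τ := mul_le_mul_of_nonneg_right hin hτ.le
        have e1 : d + f i = ((2 ^ i + j' : ℕ) : ℂ) * ν + ((d - (j' : ℂ) * ν) + (f i - 2 ^ i * ν)) := by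
          push_cast
          ring
        have e2 : ‖((2 ^ i + j' : ℕ) : ℂ) * ν‖ = ((2 ^ i + j' : ℕ) : ℝ) * ‖ν‖ := by
          rw [norm_mul, Complex.norm_natCast]
        have e3 : ‖d + f i‖ ≤ ((2 ^ i + j' : ℕ) : ℝ) * ‖ν‖ + (2 * i * τ + τ) := by
          rw [e1, ← e2]
          exact (norm_add_le _ _).trans (add_le_add le_rfl
            ((norm_add_le _ _).trans (add_le_add hd2 hfi)))
        obtain ⟨d'', hd'', hd3⟩ := hD.add d hd (f i) (hmemn i (by omega)) (by nlinarith)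
        refine ⟨d'', hd'', ?_⟩
        have e4 : d'' - ((2 ^ i + j' : ℕ) : ℂ) * ν =
            (d'' - (d + f i)) + ((d - (j' : ℂ) * ν) + (f i - 2 ^ i * ν)) := by
          push_cast
          ring
        rw [e4]
        refine (norm_add_le _ _).trans ((add_le_add hd3
          ((norm_add_le _ _).trans (add_le_add hd2 hfi))).trans ?_)
        push_cast
        linarith
  have hnat : ∀ j : ℕ, 4 * (j * ‖ν‖) ≤ V → ∃ d ∈ D, ‖d - (j : ℂ) * ν‖ ≤ 2 * n * τ := by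
    intro j hj
    refine hmult n le_rfl j ?_ hj
    by_contra hcon
    have h1 : (2 : ℝ) ^ n ≤ j := by exact_mod_cast Nat.le_of_not_lt hcon
    have h2 : 2 ^ n * ‖ν‖ ≤ j * ‖ν‖ := mul_le_mul_of_nonneg_right h1 (norm_nonneg _)
    linarith
  refine ⟨n, ν, ?_, by linarith, hτn, ?_⟩
  · have h1 := hback n 0 (by omega)
    rw [hf0, pow_zero, one_mul, norm_sub_rev] at h1
    exact h1
  · intro j hj
    rcases Int.eq_nat_or_neg j with ⟨k, rfl | rfl⟩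
    · rw [Int.cast_natCast, Nat.abs_cast] at hj
      obtain ⟨d, hd, hd2⟩ := hnat k hj
      exact ⟨d, hd, by rwa [Int.cast_natCast]⟩
    · rw [Int.cast_neg, Int.cast_natCast, abs_neg, Nat.abs_cast] at hj
      obtain ⟨d, hd, hd2⟩ := hnat k hj
      refine ⟨-d, hD.neg d hd, ?_⟩
      rw [Int.cast_neg, Int.cast_natCast]
      have h1 : -d - -(k : ℂ) * ν = -(d - (k : ℂ) * ν) := by ring
      rw [h1, norm_neg]
      exact hd2

end Pool.Agent.Work.MP_0d53be_an.Full
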